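import Pool.Agent.Helper84.FP.Goals

/-!
# Packet FQ-OFC: the number of ordered factorizations
-/

set_option autoImplicit false

namespace Pool.Agent.Helper57.FQ.OFC

open Finset

/-- The set of ordered factorizations. -/
def X (t : ℕ) : Set (List ℕ) := {l : List ℕ | (∀ x ∈ l, 2 ≤ x) ∧ l.prod = t}

theorem X_one : X 1 = {[]} := by
  ext l
  simp only [X, Set.mem_ofPred_eq, Set.mem_singleton_iff]
  constructor
  · rintro ⟨h1, h2⟩
    cases l with
    | nil => rfl
    | cons x l =>
      exfalso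
      rw [List.prod_cons] at h2
      have := h1 x (by simp)
      have h3 := Nat.eq_one_of_mul_eq_one_right h2
      omega
  · rintro rfl
    simp

theorem X_sub (t : ℕ) (ht : 2 ≤ t) :
    X t ⊆ ⋃ x ∈ t.divisors.filter (fun x => 2 ≤ x), (fun l => x :: l) '' X (t / x) := by
  rintro l ⟨h1, h2⟩
  cases l with
  | nil => simp at h2; omega
  | cons x l =>
    rw [List.prod_cons] at h2
    have hx := h1 x (by simp)
    simp only [Set.mem_iUnion]
    refine ⟨x, ?_, l, ⟨fun y hy => h1 y (by simp [hy]), ?_⟩, rfl⟩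
    · simp only [Finset.mem_filter, Nat.mem_divisors]
      exact ⟨⟨⟨l.prod, h2.symm⟩, by omega⟩, hx⟩
    · rw [← h2, Nat.mul_div_cancel_left _ (by omega)]

theorem sum_inv (t : ℕ) (ht : 1 ≤ t) :
    ∑ x ∈ Finset.Icc 2 t, (1 : ℚ) / (x : ℚ) ^ 2 ≤ 1 - 1 / t := by
  induction t, ht using Nat.le_induction with
  | base => simp
  | succ n hn ih =>
    rw [Finset.sum_Icc_succ_top (by omega)]
    have hn' : (0 : ℚ) < n := by exact_mod_cast hn
    have h : (1 : ℚ) / ((n + 1 : ℕ) : ℚ) ^ 2 ≤ 1 / n - 1 / ((n + 1 : ℕ) : ℚ) := by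
      push_cast
      rw [div_sub_div _ _ (by positivity) (by positivity), div_le_div_iff₀ (by positivity)
        (by positivity)]
      nlinarith
    linarith

theorem main : ∀ t : ℕ, 1 ≤ t → (X t).Finite ∧ (X t).ncard ≤ t ^ 2 := by
  intro t
  induction t using Nat.strong_induction_on with
  | _ t ih =>
    intro ht
    rcases Nat.lt_or_ge t 2 with h | h
    · have : t = 1 := by omega
      subst this
      rw [X_one]
      simp
    · have hsub := X_sub t h
      have hf : ∀ x ∈ t.divisors.filter (fun x => 2 ≤ x),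
          (X (t / x)).Finite ∧ (X (t / x)).ncard ≤ (t / x) ^ 2 := by
        intro x hx
        simp only [Finset.mem_filter, Nat.mem_divisors] at hx
        exact ih (t / x) (Nat.div_lt_self (by omega) hx.2)
          (Nat.div_pos (Nat.le_of_dvd (by omega) hx.1.1) (by omega))
      have hU : (⋃ x ∈ t.divisors.filter (fun x => 2 ≤ x),
          (fun l => x :: l) '' X (t / x)).Finite := by
        refine Set.Finite.biUnion (Finset.finite_toSet _) ?_
        intro x hx
        exact (hf x hx).1.image _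
      refine ⟨hU.subset hsub, ?_⟩
      have h1 : (X t).ncard ≤ ∑ x ∈ t.divisors.filter (fun x => 2 ≤ x), (X (t / x)).ncard := by
        refine (Set.ncard_le_ncard hsub hU).trans ?_
        refine (Finset.set_ncard_biUnion_le _ _).trans ?_
        refine Finset.sum_le_sum ?_
        intro x hx
        exact Set.ncard_image_le (hf x hx).1
      have h2 : ((X t).ncard : ℚ) ≤ ∑ x ∈ t.divisors.filter (fun x => 2 ≤ x),
          (t : ℚ) ^ 2 * (1 / (x : ℚ) ^ 2) := by
        have h1' : ((X t).ncard : ℚ) ≤ ∑ x ∈ t.divisors.filter (fun x => 2 ≤ x),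
            ((X (t / x)).ncard : ℚ) := by exact_mod_cast h1
        refine h1'.trans ?_
        refine Finset.sum_le_sum ?_
        intro x hx
        have h3 := (hf x hx).2
        have hx2 := (Finset.mem_filter.1 hx).2
        have hx0 : (0 : ℚ) < x := by exact_mod_cast (by omega : 0 < x)
        have h4 : ((X (t / x)).ncard : ℚ) ≤ ((t / x : ℕ) : ℚ) ^ 2 := by exact_mod_cast h3
        refine h4.trans ?_
        have h5 : ((t / x : ℕ) : ℚ) ≤ (t : ℚ) / x := Nat.cast_div_le
        calc ((t / x : ℕ) : ℚ) ^ 2 ≤ ((t : ℚ) / x) ^ 2 := by gcongr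
          _ = (t : ℚ) ^ 2 * (1 / (x : ℚ) ^ 2) := by field_simp
      have h6 : ∑ x ∈ t.divisors.filter (fun x => 2 ≤ x), (t : ℚ) ^ 2 * (1 / (x : ℚ) ^ 2) ≤
          ∑ x ∈ Finset.Icc 2 t, (t : ℚ) ^ 2 * (1 / (x : ℚ) ^ 2) := by
        refine Finset.sum_le_sum_of_subset_of_nonneg ?_ ?_
        · intro x hx
          simp only [Finset.mem_filter, Nat.mem_divisors] at hx
          exact Finset.mem_Icc.2 ⟨hx.2, Nat.le_of_dvd (by omega) hx.1.1⟩
        · intro x _ _
          positivity
      rw [← Finset.mul_sum (Finset.Icc 2 t)] at h6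
      have h7 := sum_inv t (by omega)
      have h8 : (0 : ℚ) ≤ 1 / t := by positivity
      have h9 : (t : ℚ) ^ 2 * ∑ x ∈ Finset.Icc 2 t, (1 : ℚ) / (x : ℚ) ^ 2 ≤ (t : ℚ) ^ 2 * 1 := by
        refine mul_le_mul_of_nonneg_left (by linarith) (by positivity)
      have h10 : ((X t).ncard : ℚ) ≤ (t : ℚ) ^ 2 := by linarith
      exact_mod_cast h10

theorem t : Pool.Agent.Helper84.FP.S_OFC := main

end Pool.Agent.Helper57.FQ.OFC
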